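import Mathlib

/-!
# Sums of a product of differences over a grid

For a finite family `E` of pairs of elements of `V` with `|E| = (k - 1) |V|`, the weighted sum of the
product of the differences `x u - x v`, `(u, v) ∈ E`, over a grid with `k` points in each direction
does not depend on the grid; it is zero if `k` is divisible by the characteristic.
-/

set_option autoImplicit false

open Finset

namespace Pool.Agent.Q251.UL

section
variable {V ι K : Type*} [Fintype V] [DecidableEq V] [Fintype ι] [DecidableEq ι] [Field K]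

/-- The nodal weights of the points `b i`. -/
noncomputable def wt (b : ι → K) (i : ι) : K := (∏ j ∈ univ.erase i, (b i - b j))⁻¹

lemma wt_ne_zero {b : ι → K} (hb : Function.Injective b) (i : ι) : wt b i ≠ 0 := by
  refine inv_ne_zero (prod_ne_zero_iff.2 fun j hj => ?_)
  exact sub_ne_zero.2 fun h => (mem_erase.1 hj).1 (hb h).symm

lemma sum_pow {b : ι → K} (hb : Function.Injective b) (e : ℕ) (he : e < Fintype.card ι) :
    ∑ i, b i ^ e * wt b i = if Fintype.card ι - 1 = e then 1 else 0 := by
  have h := Lagrange.coeff_eq_sum (s := (univ : Finset ι)) (v := b) hb.injOn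
    (P := (Polynomial.X : Polynomial K) ^ e) (by
      rw [Polynomial.degree_X_pow, card_univ]; exact_mod_cast he)
  rw [Polynomial.coeff_X_pow, card_univ] at h
  rw [h]
  refine sum_congr rfl fun i _ => ?_
  rw [Polynomial.eval_pow, Polynomial.eval_X, div_eq_mul_inv, wt]

/-- The weighted sum of `f` over the grid with the coordinates `b v i`. -/
noncomputable def Phi (b : V → ι → K) (f : (V → K) → K) : K :=
  ∑ s : V → ι, f (fun v => b v (s v)) * ∏ v, wt (b v) (s v)

lemma Phi_monomial (b : V → ι → K) (d : V → ℕ) :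
    Phi b (fun x => ∏ v, x v ^ d v) = ∏ v, ∑ i, b v i ^ d v * wt (b v) i := by
  unfold Phi
  rw [prod_univ_sum, Fintype.piFinset_univ]
  refine sum_congr rfl fun s _ => ?_
  rw [← prod_mul_distrib]

omit [DecidableEq V] in
lemma prod_sum_eq (b : V → ι → K) (hb : ∀ v, Function.Injective (b v)) (d : V → ℕ)
    (hk : 0 < Fintype.card ι)
    (hd : ∑ v, d v = (Fintype.card ι - 1) * Fintype.card V) :
    ∏ v, ∑ i, b v i ^ d v * wt (b v) i = if ∀ v, d v = Fintype.card ι - 1 then 1 else 0 := by
  split_ifs with h
  · refine prod_eq_one fun v _ => ?_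
    rw [sum_pow (hb v) _ (by rw [h v]; omega), if_pos (h v).symm]
  · have : ∃ v, d v < Fintype.card ι - 1 := by
      by_contra hcon
      push Not at hcon
      apply h
      by_contra h2
      push Not at h2
      obtain ⟨v, hv⟩ := h2
      have : ∑ _v : V, (Fintype.card ι - 1) < ∑ v, d v :=
        sum_lt_sum (fun v _ => hcon v) ⟨v, mem_univ _, lt_of_le_of_ne (hcon v) (Ne.symm hv)⟩
      rw [sum_const, card_univ, smul_eq_mul, hd, mul_comm] at this
      exact lt_irrefl _ this
    obtain ⟨v, hv⟩ := this
    refine prod_eq_zero (mem_univ v) ?_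
    rw [sum_pow (hb v) _ (by omega), if_neg (by omega)]

/-- The exponent of `x v` in the monomial which takes the first ends of the pairs in `T` and the
second ends of the other pairs. -/
def dg (E T : Finset (V × V)) (v : V) : ℕ :=
  (T.filter fun e => e.1 = v).card + ((E \ T).filter fun e => e.2 = v).card

lemma sum_dg (E T : Finset (V × V)) (hT : T ⊆ E) : ∑ v, dg E T v = E.card := by
  unfold dg
  rw [sum_add_distrib, ← card_eq_sum_card_fiberwise (f := fun e : V × V => e.1) (t := univ)
    (fun _ _ => mem_coe.2 (mem_univ _)), ← card_eq_sum_card_fiberwise (f := fun e : V × V => e.2)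
    (t := univ) (fun _ _ => mem_coe.2 (mem_univ _)), add_comm, card_sdiff_add_card_eq_card hT]

/-- The product of the differences. -/
def diff (E : Finset (V × V)) (x : V → K) : K := ∏ e ∈ E, (x e.1 - x e.2)

lemma prod_fst (T : Finset (V × V)) (x : V → K) :
    ∏ e ∈ T, x e.1 = ∏ v, x v ^ (T.filter fun e => e.1 = v).card := by
  rw [← prod_fiberwise T (fun e => e.1) (fun e => x e.1)]
  refine prod_congr rfl fun v _ => ?_
  rw [← prod_const]
  exact prod_congr rfl fun e he => by rw [(mem_filter.1 he).2]

lemma prod_snd (T : Finset (V × V)) (x : V → K) :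
    ∏ e ∈ T, x e.2 = ∏ v, x v ^ (T.filter fun e => e.2 = v).card := by
  rw [← prod_fiberwise T (fun e => e.2) (fun e => x e.2)]
  refine prod_congr rfl fun v _ => ?_
  rw [← prod_const]
  exact prod_congr rfl fun e he => by rw [(mem_filter.1 he).2]

lemma diff_eq (E : Finset (V × V)) (x : V → K) :
    diff E x = ∑ T ∈ E.powerset, (-1) ^ (E \ T).card * ∏ v, x v ^ dg E T v := by
  unfold diff
  simp_rw [sub_eq_add_neg]
  rw [prod_add]
  refine sum_congr rfl fun T _ => ?_
  rw [prod_neg, prod_fst, prod_snd]
  unfold dg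
  simp_rw [pow_add]
  rw [prod_mul_distrib]
  ring

/-- The value of the weighted sum. -/
def kap (K : Type*) [Field K] (E : Finset (V × V)) (k : ℕ) : K :=
  ∑ T ∈ E.powerset, (-1) ^ (E \ T).card * (if ∀ v, dg E T v = k - 1 then 1 else 0)

theorem Phi_diff (b : V → ι → K) (hb : ∀ v, Function.Injective (b v)) (E : Finset (V × V))
    (hk : 0 < Fintype.card ι) (hE : E.card = (Fintype.card ι - 1) * Fintype.card V) :
    Phi b (diff E) = kap K E (Fintype.card ι) := by
  have h1 : Phi b (diff E) =
      ∑ T ∈ E.powerset, (-1) ^ (E \ T).card * Phi b (fun x => ∏ v, x v ^ dg E T v) := by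
    unfold Phi
    simp_rw [diff_eq, sum_mul, mul_sum]
    rw [sum_comm]
    refine sum_congr rfl fun T _ => sum_congr rfl fun s _ => ?_
    ring
  rw [h1]
  unfold kap
  refine sum_congr rfl fun T hT => ?_
  rw [Phi_monomial, prod_sum_eq b hb _ hk (by rw [sum_dg E T (mem_powerset.1 hT), hE])]

end

/-! ### A grid which is invariant under translations -/

section
variable {V K : Type*} [Fintype V] [DecidableEq V] [Field K]

variable (p m : ℕ) [Fact p.Prime] [Algebra (ZMod p) K]

/-- If `B (j, i + t) = B (j, i) + t`, the weighted sum over the grid `B ^ V` vanishes. -/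
theorem Phi_translation [Nonempty V] (B : Fin m × ZMod p → K)
    (hB : ∀ j i t, B (j, i + t) = B (j, i) + algebraMap (ZMod p) K t) (E : Finset (V × V)) :
    Phi (fun _ : V => B) (diff E) = 0 := by
  classical
  let sh : ZMod p → (Fin m × ZMod p) ≃ (Fin m × ZMod p) := fun t =>
    { toFun := fun a => (a.1, a.2 + t)
      invFun := fun a => (a.1, a.2 - t)
      left_inv := fun a => by simp
      right_inv := fun a => by simp }
  have hsh : ∀ t a, B (sh t a) = B a + algebraMap (ZMod p) K t := fun t a => hB a.1 a.2 t
  have hw : ∀ t a, wt B (sh t a) = wt B a := by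
    intro t a
    unfold wt
    congr 1
    refine (prod_bij (fun j _ => sh t j) ?_ ?_ ?_ ?_).symm
    · intro j hj
      exact mem_erase.2 ⟨fun h => (mem_erase.1 hj).1 ((sh t).injective h), mem_univ _⟩
    · intro j _ j' _ h
      exact (sh t).injective h
    · intro j hj
      refine ⟨(sh t).symm j, mem_erase.2 ⟨fun h => (mem_erase.1 hj).1 ?_, mem_univ _⟩, by simp⟩
      rw [← h]; simp
    · intro j _
      rw [hsh, hsh]; ring
  let g : (V → Fin m × ZMod p) → K := fun s => diff E (fun v => B (s v)) * ∏ v, wt B (s v)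
  have hg : ∀ t s, g (fun v => sh t (s v)) = g s := by
    intro t s
    simp only [g, diff]
    congr 1
    · refine prod_congr rfl fun e _ => ?_
      rw [hsh, hsh]; ring
    · exact prod_congr rfl fun v _ => hw t _
  obtain ⟨v0⟩ := ‹Nonempty V›
  have h1 : Phi (fun _ : V => B) (diff E) = ∑ s, g s := rfl
  rw [h1, ← sum_fiberwise univ (fun s : V → Fin m × ZMod p => (s v0).2) g]
  have h2 : ∀ t : ZMod p, ∑ s with (s v0).2 = t, g s = ∑ s with (s v0).2 = 0, g s := by
    intro t
    refine (sum_bij (fun s _ => fun v => sh t (s v)) ?_ ?_ ?_ ?_).symm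
    · intro s hs
      rw [mem_filter] at hs ⊢
      refine ⟨mem_univ _, ?_⟩
      show (s v0).2 + t = t
      rw [hs.2, zero_add]
    · intro s _ s' _ h
      funext v
      exact (sh t).injective (congrFun h v)
    · intro s hs
      refine ⟨fun v => (sh t).symm (s v), ?_, by funext v; simp⟩
      rw [mem_filter] at hs ⊢
      refine ⟨mem_univ _, ?_⟩
      show (s v0).2 - t = 0
      rw [hs.2, sub_self]
    · intro s _
      exact (hg t s).symm
  rw [sum_congr rfl fun t _ => h2 t, sum_const, card_univ, ZMod.card, nsmul_eq_mul]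
  have : ((p : ℕ) : K) = 0 := by
    rw [← map_natCast (algebraMap (ZMod p) K) p, ZMod.natCast_self, map_zero]
  rw [this, zero_mul]

end

end Pool.Agent.Q251.UL
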